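import Pool.Agent.MPdfec22.Count

open Finset Polynomial

namespace Pool.Agent.Results.MP_dfec22_gt.AlmostAll

open Pool.Agent.MPdfec22

open Classical in
/-- Among the `2 ^ (n - 1)` admissible Laurent polynomials with `n_k = n`, at most
`2 ^ (n - 1) * exp (- n / 33)` have no simple root on the unit circle. -/
theorem result (n : ℕ) (hn : 1 ≤ n) :
    ((((Icc 1 n).powerset.filter
      (fun S => n ∈ S ∧ ¬ HasSimpleUnitRoot (delta S))).card : ℕ) : ℝ) ≤
      2 ^ (n - 1) * Real.exp (-(n : ℝ) / 33) := by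
  obtain ⟨m, rfl⟩ : ∃ m, n = m + 1 := ⟨n - 1, by omega⟩
  refine le_trans ?_ (card_bad m)
  have : ((Icc 1 (m + 1)).powerset.filter
      (fun S => m + 1 ∈ S ∧ ¬ HasSimpleUnitRoot (delta S))).card ≤
      ((Icc 1 (m + 1)).powerset.filter (fun S => m + 1 ∈ S ∧
      alt S (fun a => 1 - Real.cos (2 * a / ((m + 1 : ℕ) : ℝ))) ≤ 1 / 2)).card := by
    apply Finset.card_le_card
    intro S hS
    rw [Finset.mem_filter, Finset.mem_powerset] at hS ⊢
    obtain ⟨hS, hm, hbad⟩ := hS
    refine ⟨hS, hm, ?_⟩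
    by_contra hc
    apply hbad
    have hsup : S.sup id = m + 1 := by
      apply le_antisymm
      · apply Finset.sup_le
        intro a ha
        exact (Finset.mem_Icc.1 (hS ha)).2
      · exact Finset.le_sup (f := id) hm
    apply simple_of_alt S ⟨m + 1, hm⟩ (fun a ha => (Finset.mem_Icc.1 (hS ha)).1)
    rw [hsup]
    exact not_le.1 hc
  exact_mod_cast this

end Pool.Agent.Results.MP_dfec22_gt.AlmostAll
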