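import Pool.Agent.MPdfec22.Exchange

open Finset Polynomial

namespace Pool.Agent.Results.MP_dfec22_gt.AlternatingSum

open Pool.Agent.MPdfec22

/-- If `n_k - n_(k-1) + n_(k-2) - ... > (π / 6) n_k` then the admissible Laurent polynomial has a
simple root on the unit circle. -/
theorem result (S : Finset ℕ) (hS : S.Nonempty) (hpos : ∀ a ∈ S, 0 < a)
    (h : Real.pi / 6 * (S.sup id : ℕ) < ∑ a ∈ S, (-1 : ℝ) ^ above S a * (a : ℝ)) :
    HasSimpleUnitRoot (delta S) := by
  have hle : ∀ a ∈ S, a ≤ S.sup id := fun a ha => Finset.le_sup (f := id) ha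
  have hn : 0 < S.sup id := by
    obtain ⟨a, ha⟩ := hS
    exact lt_of_lt_of_le (hpos a ha) (hle a ha)
  apply simple_of_alt S hS hpos
  rw [alt_eq_sum_w _ S hle]
  apply sum_large _ hn _ (Finset.filter_subset _ _)
  have e := alt_id_eq_card _ S hle
  unfold alt at e
  rw [← e]
  exact h

end Pool.Agent.Results.MP_dfec22_gt.AlternatingSum
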