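import Pool.Agent.MPdfec22.CF6

open Finset Polynomial

namespace Pool.Agent.Results.MP_dfec22_gt.CubeFree

open Pool.Agent.MPdfec22

/-- Let `Δ` be the admissible Laurent polynomial of `S = {n_1 < ... < n_k}`. It has a root of odd
multiplicity on the unit circle, hence a simple one unless the cube of a monic irreducible integer
polynomial divides it. In particular it has a simple root on the unit circle if it is cube-free modulo
some prime `p`, for example if all `(n_j / c)²` are congruent to some `r ≠ 0` modulo `p` for some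
common divisor `c` of the `n_j`; if no `n_j` is divisible by three; if all `n_j` are odd; if `k ≤ 2`. -/
theorem result (S : Finset ℕ) (hS : S.Nonempty) (hpos : ∀ a ∈ S, 0 < a) :
    (∃ ζ : ℂ, ‖ζ‖ = 1 ∧ Odd (((delta S).map (Int.castRingHom ℂ)).rootMultiplicity ζ)) ∧
    (HasSimpleUnitRoot (delta S) ∨ ∃ M : ℤ[X], M.Monic ∧ Irreducible M ∧
      (∃ ζ : ℂ, ‖ζ‖ = 1 ∧ (M.map (Int.castRingHom ℂ)).IsRoot ζ) ∧ M ^ 3 ∣ delta S) ∧
    (∀ p : ℕ, p.Prime → (∀ m : (ZMod p)[X],
      m ^ 3 ∣ (delta S).map (Int.castRingHom (ZMod p)) → m.natDegree = 0) →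
      HasSimpleUnitRoot (delta S)) ∧
    (∀ (c p : ℕ) (r : ZMod p), p.Prime → r ≠ 0 →
      (∀ a ∈ S, ∃ b : ℕ, a = c * b ∧ (b : ZMod p) ^ 2 = r) → HasSimpleUnitRoot (delta S)) ∧
    ((∀ a ∈ S, ¬ 3 ∣ a) → HasSimpleUnitRoot (delta S)) ∧
    ((∀ a ∈ S, Odd a) → HasSimpleUnitRoot (delta S)) ∧
    (S.card ≤ 2 → HasSimpleUnitRoot (delta S)) := by
  refine ⟨cf_unit_odd S hS hpos, ?_, fun p hp h => ?_, fun c p r hp hr h =>
    cf_scaled S hS hpos c p hp r hr h, cf_three S hS hpos, cf_odd S hS, cf_two S hS hpos⟩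
  · rcases cf_main S hS hpos with ⟨t, h1, h2⟩ | h
    · exact Or.inl (simple_of_zero S t h1 h2)
    · exact Or.inr h
  · obtain ⟨t, h1, h2⟩ := cf_mod S hS hpos p hp h
    exact simple_of_zero S t h1 h2

end Pool.Agent.Results.MP_dfec22_gt.CubeFree
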