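import Pool.Agent.MPdfec22.Basic

open Finset Polynomial

namespace Pool.Agent.Results.MP_dfec22_gt.TopGap

open Pool.Agent.MPdfec22

private theorem cos_lower : (0.0859 : ℝ) ≤ Real.cos (37 / 25) := by
  have h := Real.cos_bound (x := 37 / 200) (by rw [abs_of_pos] <;> norm_num)
  rw [abs_le] at h
  have e : |(37 / 200 : ℝ)| = 37 / 200 := by rw [abs_of_pos]; norm_num
  rw [e] at h
  have h0 : (0.982826 : ℝ) ≤ Real.cos (37 / 200) := by nlinarith [h.1]
  have e1 : Real.cos (37 / 100) = 2 * Real.cos (37 / 200) ^ 2 - 1 := by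
    rw [← Real.cos_two_mul]; norm_num
  have e2 : Real.cos (37 / 50) = 2 * Real.cos (37 / 100) ^ 2 - 1 := by
    rw [← Real.cos_two_mul]; norm_num
  have e3 : Real.cos (37 / 25) = 2 * Real.cos (37 / 50) ^ 2 - 1 := by
    rw [← Real.cos_two_mul]; norm_num
  have a1 : (0.93189 : ℝ) ≤ Real.cos (37 / 100) := by rw [e1]; nlinarith
  have a2 : (0.73683 : ℝ) ≤ Real.cos (37 / 50) := by rw [e2]; nlinarith
  rw [e3]
  nlinarith

/-- If every `n_j` with `j < k` is at most `(37/50) n_k` then the admissible Laurent polynomial has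
a simple root on the unit circle. -/
theorem result (S : Finset ℕ) (hS : S.Nonempty) (hpos : ∀ a ∈ S, 0 < a)
    (h : ∀ a ∈ S, a ≠ S.sup id → 50 * a ≤ 37 * S.sup id) :
    HasSimpleUnitRoot (delta S) := by
  set n : ℕ := S.sup id with hn
  have hle : ∀ a ∈ S, a ≤ n := fun a ha => Finset.le_sup (f := id) ha
  have hn0 : 0 < n := by
    obtain ⟨a, ha⟩ := hS
    exact lt_of_lt_of_le (hpos a ha) (hle a ha)
  have hnr : (0 : ℝ) < n := by exact_mod_cast hn0
  have hpi := Real.pi_gt_three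
  have hnS : n ∈ S := by
    obtain ⟨x, hx, hx2⟩ := Finset.exists_mem_eq_sup S hS id
    rw [hn, hx2]
    exact hx
  apply simple_of_alt S hS hpos
  rw [← hn]
  have hins : S = insert n (S.erase n) := (Finset.insert_erase hnS).symm
  have hlt : ∀ b ∈ S.erase n, b < n := by
    intro b hb
    have h1 := Finset.mem_erase.1 hb
    exact lt_of_le_of_ne (hle b h1.2) h1.1
  rw [hins, alt_insert hlt]
  have hnn : 2 * (n : ℝ) / n = 2 := by field_simp
  rw [hnn]
  have hrange : ∀ a ∈ S.erase n, 0 < 2 * (a : ℝ) / n ∧ 2 * (a : ℝ) / n ≤ 37 / 25 := by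
    intro a ha
    have h1 := Finset.mem_erase.1 ha
    have h2 : (0 : ℝ) < a := by exact_mod_cast hpos a h1.2
    have h3 : 50 * (a : ℝ) ≤ 37 * n := by exact_mod_cast h a h1.2 h1.1
    refine ⟨by positivity, ?_⟩
    rw [div_le_iff₀ hnr]
    linarith
  have hb := (alt_bounds (fun a : ℕ => 1 - Real.cos (2 * (a : ℝ) / n)) (S.erase n) ?_ ?_).2.2.1
    (1 - Real.cos (37 / 25)) (by linarith [Real.cos_le_one (37 / 25)]) ?_
  · have h1 := cos_lower
    have h2 := cos_two_bounds.2
    linarith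
  · intro a ha
    obtain ⟨h1, h2⟩ := hrange a ha
    have h3 : Real.cos (2 * (a : ℝ) / n) < Real.cos 0 :=
      Real.cos_lt_cos_of_nonneg_of_le_pi le_rfl (by linarith) h1
    rw [Real.cos_zero] at h3
    linarith
  · intro a ha b hb hab
    obtain ⟨h1, -⟩ := hrange a ha
    obtain ⟨-, h4⟩ := hrange b hb
    have h5 : 2 * (a : ℝ) / n < 2 * (b : ℝ) / n := by
      have : (a : ℝ) < b := by exact_mod_cast hab
      apply div_lt_div_of_pos_right _ hnr
      linarith
    have h3 := Real.cos_lt_cos_of_nonneg_of_le_pi h1.le (by linarith) h5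
    linarith
  · intro a ha
    obtain ⟨h1, h2⟩ := hrange a ha
    have h3 := Real.cos_le_cos_of_nonneg_of_le_pi h1.le (by linarith) h2
    linarith

end Pool.Agent.Results.MP_dfec22_gt.TopGap
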